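import Pool.Agent.Lib.MP_f3a92d_nt.Greedy

set_option autoImplicit false

namespace Pool.Agent.Results.MP_f3a92d_nt.GoodChoice

/-- `n` is `k`-covered by the choice `a` of residues: `n = a p + t p` for some prime `p` and some
integer `t ≥ k`. -/
def Covered (k : ℕ) (a : ℕ → ℕ) (n : ℕ) : Prop :=
  ∃ p : ℕ, p.Prime ∧ ∃ t : ℤ, (k : ℤ) ≤ t ∧ (n : ℤ) = (a p : ℤ) + t * (p : ℤ)

/-- `a` is a choice of residues: `a p` is one of `0, 1, …, p - 1` for every prime `p`. -/
def IsChoice (a : ℕ → ℕ) : Prop := ∀ p : ℕ, p.Prime → a p < p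

/-- The choice `a` is `k`-good: all but finitely many positive integers are `k`-covered. -/
def Good (k : ℕ) (a : ℕ → ℕ) : Prop := {n : ℕ | 0 < n ∧ ¬ Covered k a n}.Finite

/-- For every integer `k ≥ 1` there is a choice of residues, one for every prime, that is
`k`-good. -/
theorem result (k : ℕ) (hk : 1 ≤ k) : ∃ a : ℕ → ℕ, IsChoice a ∧ Good k a := by
  obtain ⟨a, ha, N, hN⟩ := Pool.Agent.Lib.MP_f3a92d_nt.main k hk
  refine ⟨a, ha, (Set.finite_Iio N).subset ?_⟩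
  rintro n ⟨-, hn⟩
  by_contra hlt
  rw [Set.mem_Iio, not_lt] at hlt
  obtain ⟨p, hp, t, ht, he⟩ := hN n hlt
  exact hn ⟨p, hp, (t : ℤ), by exact_mod_cast ht, by exact_mod_cast he⟩

end Pool.Agent.Results.MP_f3a92d_nt.GoodChoice
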